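import Mathlib
import Pool.Agent.H.MP_59b15d_al.h94h.Fa4

set_option autoImplicit false

namespace Pool.MP_59b15d_al.SymH

open Finset

variable {ge N : ℕ}

/-- (FAITH) in terms of all peripheral elements -/
theorem faith0g (E : Fin (N + 1) → ℕ) (hE : ∀ j, 2 ≤ E j)
    (hy : ∑ j, (1 / E j : ℚ) < 2 * ge + N - 1)
    (V : Subgroup (FG ge N)) (hV : V.Normal) (hVf : V.FiniteIndex)
    (h1 : ∀ j, (per j : FG ge N) ^ E j ∈ V) (o1 : ∀ (j : Fin (N + 1)) (k : ℕ), (per j : FG ge N) ^ k ∈ V → E j ∣ k) :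
    ∃ U : Subgroup (FG ge N), U.Normal ∧ U.FiniteIndex ∧ U ≤ V ∧ (∀ j, (per j : FG ge N) ^ E j ∈ U) ∧
      ∀ d : FG ge N, (∀ v ∈ V, d * v * d⁻¹ * v⁻¹ ∈ U) → d ∈ V := by
  classical
  have hf1 : Finite (FG ge N ⧸ V) := Subgroup.finite_quotient_of_finiteIndex
  have hF1 : Fintype (FG ge N ⧸ V) := Fintype.ofFinite _
  obtain ⟨ℓ, hℓ1, hℓ⟩ := Nat.exists_infinite_primes (Nat.card (FG ge N ⧸ V) + ∑ j, E j + 1)
  have hfact : Fact ℓ.Prime := ⟨hℓ⟩
  have hcast : ∀ k : ℕ, 0 < k → k < ℓ → (k : ZMod ℓ) ≠ 0 := by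
    intro k hk hkl h
    rw [ZMod.natCast_eq_zero_iff] at h
    exact absurd (Nat.le_of_dvd hk h) (by omega)
  have hElt : ∀ j, E j < ℓ := by
    intro j
    have := single_le_sum (f := E) (fun i _ => Nat.zero_le _) (mem_univ j)
    omega
  have hEK : ∀ j, (E j : ZMod ℓ) ≠ 0 := fun j => hcast _ (by have := hE j; omega) (hElt j)
  refine ⟨UU V hV (ZMod ℓ) E, UU_normal V hV E, UU_fin V hV hVf E, fun g hg => hg.1, ?_, ?_⟩
  · intro j
    exact ⟨h1 j, fun c hc h x => h j x⟩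
  · intro d hd
    by_contra hdV
    have hle : V ≤ V ⊔ Subgroup.zpowers d := le_sup_left
    have hf2 : Finite (FG ge N ⧸ (V ⊔ Subgroup.zpowers d)) := Finite.of_surjective _ (prj_surj hle)
    have hF2 : Fintype (FG ge N ⧸ (V ⊔ Subgroup.zpowers d)) := Fintype.ofFinite _
    -- the order of d
    have hn0 : d ^ Nat.card (FG ge N ⧸ V) ∈ V := by
      rw [← QuotientGroup.eq_one_iff]
      change (d : FG ge N ⧸ V) ^ Nat.card (FG ge N ⧸ V) = 1
      exact pow_card_eq_one'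
    have hcard : 0 < Nat.card (FG ge N ⧸ V) := Nat.card_pos
    have hcmp := zc_compare (K := ZMod ℓ) hV hVf E d (Nat.card (FG ge N ⧸ V)) hn0
      (hcast _ hcard (by omega)) (by
        intro c hc h v hv
        have h2 := zc_comm hV hc hv (fun x => (hd v hv).2 c hc h x) (d • bp V)
        rw [inv_smul_smul] at h2
        exact h2.symm) hle
    have hsmall : Nat.card (FG ge N ⧸ (V ⊔ Subgroup.zpowers d)) < Nat.card (FG ge N ⧸ V) := by
      rw [Nat.card_eq_fintype_card, Nat.card_eq_fintype_card]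
      apply Fintype.card_lt_of_surjective_not_injective (prj hle) (prj_surj hle)
      intro hinj
      apply hdV
      apply mem_of_smul_bp
      apply hinj
      have h3 : d • bp (V ⊔ Subgroup.zpowers d) = (1 : FG ge N) • bp (V ⊔ Subgroup.zpowers d) := by
        rw [smul_bp_eq, mul_one]
        exact Subgroup.inv_mem _ (Subgroup.mem_sup_right (Subgroup.mem_zpowers d))
      rw [prj_bp, h3, one_smul]
      have h4 := prj_bp hle (1 : FG ge N)
      rw [one_smul, one_smul] at h4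
      exact h4.symm
    have hpos2 : 0 < Nat.card (FG ge N ⧸ (V ⊔ Subgroup.zpowers d)) := Nat.card_pos
    have ht1 : ∀ j (x : FG ge N ⧸ V), (per j ^ E j : FG ge N) • x = x := fun j x =>
      triv_smul hV (h1 j) x
    have ht2 : ∀ j (x : FG ge N ⧸ (V ⊔ Subgroup.zpowers d)), (per j ^ E j : FG ge N) • x = x := by
      intro j y
      obtain ⟨x, rfl⟩ := prj_surj hle y
      rw [← prj_smul, ht1]
    have r1 := zc_rank (K := ZMod ℓ) (S := FG ge N ⧸ V) E ht1 hEK (by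
      rw [← Nat.card_eq_fintype_card]
      exact hcast _ hcard (by omega))
    have r2 := zc_rank (K := ZMod ℓ) (S := FG ge N ⧸ (V ⊔ Subgroup.zpowers d)) E ht2 hEK (by
      rw [← Nat.card_eq_fintype_card]
      exact hcast _ hpos2 (by omega))
    rw [← Nat.card_eq_fintype_card] at r1 r2
    have b1 : ∀ j : Fin (N + 1), E j * Nat.card (OQ (per j : FG ge N) (FG ge N ⧸ V)) ≤
        Nat.card (FG ge N ⧸ V) := by
      intro j
      rw [Nat.card_eq_fintype_card (α := FG ge N ⧸ V)]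
      refine oq_le_card fun k x hk => ?_
      obtain ⟨g, rfl⟩ := exists_smul_bp V x
      have h3 : (per j : FG ge N) ^ k ∈ V := by
        rw [← mul_smul, smul_bp_eq, mul_inv_rev, mul_assoc] at hk
        have h4 := hV.conj_mem _ hk g
        rw [mul_inv_cancel_left, mul_inv_cancel_right] at h4
        exact (Subgroup.inv_mem_iff V).mp h4
      have h5 : (per j : FG ge N) ^ k.natAbs ∈ V := by
        rcases Int.natAbs_eq k with h | h
        · rw [h, zpow_natCast] at h3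
          exact h3
        · rw [h, zpow_neg, zpow_natCast] at h3
          exact (Subgroup.inv_mem_iff V).mp h3
      exact Int.natCast_dvd.mpr (o1 j _ h5)
    have b2 : ∀ j : Fin (N + 1), Nat.card (FG ge N ⧸ (V ⊔ Subgroup.zpowers d)) ≤
        E j * Nat.card (OQ (per j : FG ge N) (FG ge N ⧸ (V ⊔ Subgroup.zpowers d))) := by
      intro j
      rw [Nat.card_eq_fintype_card (α := FG ge N ⧸ (V ⊔ Subgroup.zpowers d))]
      exact card_le_oq (by have := hE j; omega) (ht2 j)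
    have c4 : (Nat.card (FG ge N ⧸ (V ⊔ Subgroup.zpowers d)) : ℚ) < (Nat.card (FG ge N ⧸ V) : ℚ) := by
      exact_mod_cast hsmall
    have b3 : ∀ j : Fin (N + 1),
        (Nat.card (OQ (per j : FG ge N) (FG ge N ⧸ V)) : ℚ) -
        (Nat.card (OQ (per j : FG ge N) (FG ge N ⧸ (V ⊔ Subgroup.zpowers d))) : ℚ) ≤
          ((Nat.card (FG ge N ⧸ V) : ℚ) - (Nat.card (FG ge N ⧸ (V ⊔ Subgroup.zpowers d)) : ℚ)) *
            (1 / E j : ℚ) := by
      intro j
      have c1 : (E j : ℚ) * (Nat.card (OQ (per j : FG ge N) (FG ge N ⧸ V)) : ℚ) ≤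
          (Nat.card (FG ge N ⧸ V) : ℚ) := by exact_mod_cast b1 j
      have c2 : (Nat.card (FG ge N ⧸ (V ⊔ Subgroup.zpowers d)) : ℚ) ≤
          (E j : ℚ) * (Nat.card (OQ (per j : FG ge N) (FG ge N ⧸ (V ⊔ Subgroup.zpowers d))) : ℚ) := by
        exact_mod_cast b2 j
      have c3 : (2 : ℚ) ≤ E j := by exact_mod_cast hE j
      have c5 : (0 : ℚ) < E j := by linarith
      rw [mul_one_div, le_div_iff₀ c5]
      linarith
    have b4 := sum_le_sum fun (j : Fin (N + 1)) (_ : j ∈ univ) => b3 j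
    rw [sum_sub_distrib, ← mul_sum] at b4
    have e1 : (Module.finrank (ZMod ℓ) (LinearMap.ker (TT ge (FG ge N ⧸ V) (ZMod ℓ) E)) : ℚ) +
        ∑ j : Fin (N + 1), (Nat.card (OQ (per j : FG ge N) (FG ge N ⧸ V)) : ℚ) =
          (2 * ge + N) * (Nat.card (FG ge N ⧸ V) : ℚ) + 1 := by exact_mod_cast r1
    have e2 : (Module.finrank (ZMod ℓ)
        (LinearMap.ker (TT ge (FG ge N ⧸ (V ⊔ Subgroup.zpowers d)) (ZMod ℓ) E)) : ℚ) +
        ∑ j : Fin (N + 1), (Nat.card (OQ (per j : FG ge N) (FG ge N ⧸ (V ⊔ Subgroup.zpowers d))) : ℚ) =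
          (2 * ge + N) * (Nat.card (FG ge N ⧸ (V ⊔ Subgroup.zpowers d)) : ℚ) + 1 := by exact_mod_cast r2
    have e3 : (Module.finrank (ZMod ℓ) (LinearMap.ker (TT ge (FG ge N ⧸ V) (ZMod ℓ) E)) : ℚ) +
        (Nat.card (FG ge N ⧸ (V ⊔ Subgroup.zpowers d)) : ℚ) ≤
        (Module.finrank (ZMod ℓ)
          (LinearMap.ker (TT ge (FG ge N ⧸ (V ⊔ Subgroup.zpowers d)) (ZMod ℓ) E)) : ℚ) +
        (Nat.card (FG ge N ⧸ V) : ℚ) := by exact_mod_cast hcmp
    generalize (Nat.card (FG ge N ⧸ V) : ℚ) = q at *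
    generalize (Nat.card (FG ge N ⧸ (V ⊔ Subgroup.zpowers d)) : ℚ) = s at *
    have e6 : 0 < (2 * (ge : ℚ) + (N : ℚ) - 1 - ∑ j, (1 / E j : ℚ)) * (q - s) :=
      mul_pos (by linarith) (by linarith)
    nlinarith

end Pool.MP_59b15d_al.SymH
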