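import Mathlib
import Pool.Agent.H.MP_59b15d_al.h77t.Fg
import Pool.Agent.H.MP_59b15d_al.symh.Ctr

set_option autoImplicit false

namespace Pool.MP_59b15d_al.SymH

open Pool.MP_59b15d_al.Sym (co_one co_inv coHom coHom_apply smul_quot mem_of_smul_quot)

variable {h N : ℕ}

/-- (FAITH, all points killed), hyperbolic case. -/
theorem faithAg (e : Fin N → ℕ) (he : ∀ j, 2 ≤ e j) (m : ℕ) (hm : 2 ≤ m)
    (hy : ∑ j, (1 / e j : ℚ) + 1 / m < 2 * h + N - 1)
    (V : Subgroup (FG h N)) (hV : V.Normal) (hVf : V.FiniteIndex)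
    (h1 : ∀ j, xg j ^ e j ∈ V) (h2 : xn h N ^ m ∈ V)
    (o1 : ∀ (j : Fin N) (k : ℕ), (xg j : FG h N) ^ k ∈ V → e j ∣ k)
    (o2 : ∀ k : ℕ, xn h N ^ k ∈ V → m ∣ k) :
    ∃ U : Subgroup (FG h N), U.Normal ∧ U.FiniteIndex ∧ U ≤ V ∧ (∀ j, xg j ^ e j ∈ U) ∧
      xn h N ^ m ∈ U ∧ ∀ d : FG h N, (∀ v ∈ V, d * v * d⁻¹ * v⁻¹ ∈ U) → d ∈ V := by
  let E : Fin (N + 1) → ℕ := Fin.snoc e m
  have hEc : ∀ j : Fin N, E j.castSucc = e j := fun j => by simp [E]
  have hEl : E (Fin.last N) = m := by simp [E]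
  obtain ⟨U, hUn, hUf, hUV, hUE, hU⟩ := faith0g E (fun j => by
      refine Fin.lastCases ?_ (fun i => ?_) j
      · rw [hEl]; exact hm
      · rw [hEc]; exact he i) (by
      rw [Fin.sum_univ_castSucc, hEl]
      simp only [hEc]
      exact hy) V hV hVf (fun j => by
      refine Fin.lastCases ?_ (fun i => ?_) j
      · rw [hEl, per_last]; exact h2
      · rw [hEc, per_castSucc]; exact h1 i) (fun j => by
      refine Fin.lastCases ?_ (fun i => ?_) j
      · rw [hEl, per_last]; exact o2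
      · rw [hEc, per_castSucc]; exact o1 i)
  refine ⟨U, hUn, hUf, hUV, fun j => ?_, ?_, hU⟩
  · have h3 := hUE j.castSucc
    rwa [hEc, per_castSucc] at h3
  · have h3 := hUE (Fin.last N)
    rwa [hEl, per_last] at h3

/-- (FAITH, all points but the last killed), hyperbolic case. -/
theorem faithBg (e : Fin N → ℕ) (he : ∀ j, 2 ≤ e j)
    (hy : ∑ j, (1 / e j : ℚ) < 2 * h + N - 1)
    (hord : ∀ M : ℕ, 0 < M → ∃ K : Subgroup (FG h N), K.Normal ∧ K.FiniteIndex ∧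
      (∀ j, xg j ^ e j ∈ K) ∧ ∀ k : ℕ, xn h N ^ k ∈ K → M ∣ k)
    (V : Subgroup (FG h N)) (hV : V.Normal) (hVf : V.FiniteIndex) (h1 : ∀ j, xg j ^ e j ∈ V)
    (o1 : ∀ (j : Fin N) (k : ℕ), (xg j : FG h N) ^ k ∈ V → e j ∣ k) :
    ∃ U : Subgroup (FG h N), U.Normal ∧ U.FiniteIndex ∧ U ≤ V ∧ (∀ j, xg j ^ e j ∈ U) ∧
      ∀ d : FG h N, (∀ v ∈ V, d * v * d⁻¹ * v⁻¹ ∈ U) → d ∈ V := by
  obtain ⟨M, hM⟩ := exists_nat_gt (1 / (2 * h + N - 1 - ∑ j, (1 / e j : ℚ)))
  have hd : 0 < 2 * h + N - 1 - ∑ j, (1 / e j : ℚ) := by linarith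
  have hM0 : (0 : ℚ) < M := (one_div_pos.2 hd).trans hM
  have hM' : (1 / M : ℚ) < 2 * h + N - 1 - ∑ j, (1 / e j : ℚ) := (one_div_lt hd hM0).1 hM
  have hM1 : 0 < M := by exact_mod_cast hM0
  obtain ⟨K, hK, hKf, hKe, hKo⟩ := hord (M + 1) (Nat.succ_pos M)
  let V' : Subgroup (FG h N) := V ⊓ K
  have hV'n : V'.Normal := inferInstance
  have hV'f : V'.FiniteIndex := inferInstance
  have hfin : Finite (FG h N ⧸ V') := Subgroup.finite_quotient_of_finiteIndex
  let m := orderOf ((xn h N : FG h N) : FG h N ⧸ V')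
  have hmem : ∀ k : ℕ, xn h N ^ k ∈ V' ↔ m ∣ k := by
    intro k
    rw [← QuotientGroup.eq_one_iff, orderOf_dvd_iff_pow_eq_one]
    rfl
  have hm0 : m ≠ 0 := (orderOf_pos _).ne'
  have hmM : M + 1 ≤ m := Nat.le_of_dvd (Nat.pos_of_ne_zero hm0)
    (hKo m ((hmem m).2 dvd_rfl).2)
  have hmM' : (M : ℚ) ≤ m := by exact_mod_cast (Nat.le_succ M).trans hmM
  have hmm : (1 / m : ℚ) ≤ 1 / M := one_div_le_one_div_of_le hM0 hmM'
  obtain ⟨U, hUn, hUf, hUV, hUE, -, hU⟩ := faithAg e he m (by omega) (by linarith) V' hV'n hV'f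
    (fun j => ⟨h1 j, hKe j⟩)
    ((hmem m).mpr dvd_rfl) (fun j k hk => o1 j k hk.1) (fun k hk => (hmem k).mp hk)
  refine ⟨U, hUn, hUf, fun x hx => (hUV hx).1, hUE, fun d hd => ?_⟩
  exact (hU d fun v hv => hd v hv.1).1

/-- From a nontrivial finite quotient where the last point dies, quotients where its order is
large. -/
theorem ord_of_big (e : Fin N → ℕ) (U : Subgroup (FG h N)) (hU : U.Normal) (hUf : U.FiniteIndex)
    (hUe : ∀ j, xg j ^ e j ∈ U) (hUx : xn h N ∈ U) (hUt : U ≠ ⊤) (M : ℕ) (hM : 0 < M) :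
    ∃ K : Subgroup (FG h N), K.Normal ∧ K.FiniteIndex ∧ K ≤ U ∧
      (∀ j, xg j ^ e j ∈ K) ∧ (xn h N ^ M ∈ K) ∧ ∀ k : ℕ, xn h N ^ k ∈ K → M ∣ k := by
  classical
  have hfin : Finite (FG h N ⧸ U) := Subgroup.finite_quotient_of_finiteIndex
  have hMz : NeZero M := ⟨hM.ne'⟩
  obtain ⟨y, hy⟩ : ∃ y : FG h N, y ∉ U := by
    by_contra hcon
    push Not at hcon
    exact hUt (Subgroup.eq_top_iff' U |>.2 hcon)
  have hne : ((y : FG h N) : FG h N ⧸ U) ≠ ((1 : FG h N) : FG h N ⧸ U) := by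
    intro h1
    exact hy ((QuotientGroup.eq_one_iff y).1 h1)
  set κ : FG h N ⧸ U → ZMod M := fun x => if x = ((1 : FG h N) : FG h N ⧸ U) then 1 else
    if x = ((y : FG h N) : FG h N ⧸ U) then -1 else 0 with hκ
  obtain ⟨K, hK, hKe, hKx⟩ := coch (X := FG h N ⧸ U) (M := ZMod M) e
    (fun j x => smul_quot U hU (hUe j) x) κ (by
      intro x
      rw [MulAction.orbit_eq_univ, finsum_mem_univ]
      have := Fintype.ofFinite (FG h N ⧸ U)
      rw [finsum_eq_sum_of_fintype]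
      have h1 : ∀ x, κ x = (if x = ((1 : FG h N) : FG h N ⧸ U) then 1 else 0) +
          (if x = ((y : FG h N) : FG h N ⧸ U) then -1 else 0) := by
        intro x
        simp only [hκ]
        by_cases h2 : x = ((1 : FG h N) : FG h N ⧸ U)
        · rw [if_pos h2, if_pos h2, if_neg (fun h3 => hne (h3.symm.trans h2)), add_zero]
        · rw [if_neg h2, if_neg h2, zero_add]
      simp only [h1]
      rw [Finset.sum_add_distrib, Finset.sum_ite_eq', Finset.sum_ite_eq']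
      simp)
  have hxn : ∀ (k : ℕ) (x : FG h N ⧸ U) (t : ZMod M),
      coHom K hK (xn h N ^ k) (x, t) = (x, t + k * κ x) := by
    intro k x t
    induction k with
    | zero => simp
    | succ k ih =>
      rw [pow_succ', map_mul, Equiv.Perm.mul_apply, ih, coHom_apply, smul_quot U hU hUx, hKx]
      push_cast
      rw [add_assoc]
      congr 2
      ring
  have hle : (coHom K hK).ker ≤ U := by
    intro u hu
    apply mem_of_smul_quot
    have h1 : coHom K hK u (((1 : FG h N) : FG h N ⧸ U), 0) = (((1 : FG h N) : FG h N ⧸ U), 0) := by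
      rw [MonoidHom.mem_ker] at hu
      rw [hu]
      rfl
    rw [coHom_apply] at h1
    exact congrArg Prod.fst h1
  refine ⟨(coHom K hK).ker, inferInstance, inferInstance, hle, ?_, ?_, ?_⟩
  · intro j
    rw [MonoidHom.mem_ker]
    ext1 ⟨x, t⟩
    rw [coHom_apply, hKe, smul_quot U hU (hUe j), add_zero]
    rfl
  · rw [MonoidHom.mem_ker]
    ext1 ⟨x, t⟩
    rw [hxn]
    simp
  · intro k hk
    rw [MonoidHom.mem_ker] at hk
    have h1 := hxn k ((1 : FG h N) : FG h N ⧸ U) 0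
    rw [hk] at h1
    have h2 : (0 : ZMod M) = 0 + k * κ ((1 : FG h N) : FG h N ⧸ U) := congrArg Prod.snd h1
    simp only [hκ, if_true, mul_one, zero_add] at h2
    exact (ZMod.natCast_eq_zero_iff _ _).mp h2.symm

end Pool.MP_59b15d_al.SymH
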